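import Pool.Agent.H160R3.Herm.Main

/-! MP_ef2672_gt: the limit points of `γ_n / n` along any slowly growing sequence of dimensions
form the whole interval `[liminf γ_n / n, limsup γ_n / n]`. -/

open Filter Set
open scoped Topology

namespace Pool.Agent.Results.MP_ef2672_gt.LimitPoints

open Pool.Agent.H160R3.Herm

theorem result (φ : ℕ → ℕ) (hφ : StrictMono φ)
    (hr : Tendsto (fun j => (φ (j + 1) : ℝ) / φ j) atTop (𝓝 1)) :
    {x : ℝ | MapClusterPt x atTop (fun j => hermite (φ j) / (φ j : ℝ))} =
      Icc (liminf (fun n : ℕ => hermite n / (n : ℝ)) atTop)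
        (limsup (fun n : ℕ => hermite n / (n : ℝ)) atTop) :=
  slowDec.clusterPts_seq hφ hr

end Pool.Agent.Results.MP_ef2672_gt.LimitPoints
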